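import Pool.Agent.helper62.DP7.Spec

/-!
# Row `d7:GRD` (MP_e3efbc_co)
-/

set_option autoImplicit false

namespace Pool.Agent.helper62.DP7

open Finset

theorem GRD : GRD_stmt := by
  intro V W _ G R L hL A B z hcol hq
  classical
  by_cases hz : z ∈ B
  · rw [Finset.insert_eq_of_mem hz]
    exact hcol
  obtain ⟨f, hf1, hf2⟩ := hcol
  obtain ⟨F, hF⟩ : ∃ F : Finset W, F = (qn G A B z).biUnion (fun x => (L z).filter (fun c => R (f x) c)) := ⟨_, rfl⟩
  have h1 : F.card ≤ 6 := by
    have h2 : F.card ≤ (qn G A B z).card * 1 := by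
      rw [hF]
      refine Finset.card_biUnion_le_card_mul _ _ _ fun x hx => ?_
      rw [Finset.card_le_one]
      intro b hb b' hb'
      rw [Finset.mem_filter] at hb hb'
      have hxB := (mem_qn.1 hx).1
      have hxz : x ≠ z := fun h => hz (h ▸ hxB)
      exact hL.mat x z hxz (f x) (hf1 x hxB) b hb.1 b' hb'.1 hb.2 hb'.2
    omega
  have h3 : ∃ c ∈ L z, c ∉ F := by
    by_contra hcon
    push Not at hcon
    have h4 := Finset.card_le_card (show L z ⊆ F from hcon)
    have h5 := hL.big z
    omega
  obtain ⟨c, hc, hcF⟩ := h3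
  have h6 : ∀ x ∈ B, sq G A z x → ¬ R (f x) c := by
    intro x hx hsq hR
    apply hcF
    rw [hF, Finset.mem_biUnion]
    exact ⟨x, mem_qn.2 ⟨hx, hsq⟩, Finset.mem_filter.2 ⟨hc, hR⟩⟩
  refine ⟨Function.update f z c, fun v hv => ?_, fun u hu v hv huv => ?_⟩
  · by_cases hvz : v = z
    · subst hvz
      rw [Function.update_self]
      exact hc
    · rw [Function.update_of_ne hvz]
      exact hf1 v ((Finset.mem_insert.1 hv).resolve_left hvz)
  · by_cases huz : u = z
    · by_cases hvz : v = z
      · exact absurd (huz.trans hvz.symm) huv.1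
      · rw [huz, Function.update_self, Function.update_of_ne hvz]
        rw [huz] at huv
        exact fun hR => h6 v ((Finset.mem_insert.1 hv).resolve_left hvz) huv (hL.symm _ _ hR)
    · by_cases hvz : v = z
      · rw [hvz, Function.update_self, Function.update_of_ne huz]
        rw [hvz] at huv
        exact h6 u ((Finset.mem_insert.1 hu).resolve_left huz) (sq_symm huv)
      · rw [Function.update_of_ne huz, Function.update_of_ne hvz]
        exact hf2 u ((Finset.mem_insert.1 hu).resolve_left huz) v
          ((Finset.mem_insert.1 hv).resolve_left hvz) huv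

end Pool.Agent.helper62.DP7
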